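import Pool.Agent.helper59.FI.SpecB

/-!
# Project fi (MP_baa4d7_al), row EXC: the class sum of a larger group
-/

set_option autoImplicit false

namespace Pool.Agent.FI

open Pool.Agent.helper58.DC Pool.Agent.DI Pool.Agent.GR Pool.Agent.OB

theorem EXC_num {G : Type} [Group G] [Finite G] {C T Z : Subgroup G} (hCT : C ≤ T) (hZT : Z ≤ T)
    (hn : ∀ t ∈ T, ∀ c ∈ C, t * c * t⁻¹ ∈ C) :
    ∃ N : ℕ, N ≠ 0 ∧ N * Nat.card (C ⊓ Z : Subgroup G) = Nat.card C * Nat.card Z ∧ N ∣ Nat.card T := by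
  have hc : ∀ {A B : Subgroup G}, A ≤ B → Nat.card (A.subgroupOf B) = Nat.card A := fun h =>
    Nat.card_congr (Subgroup.subgroupOfEquivOfLe h).toEquiv
  have hcz : Nat.card (C.subgroupOf Z) = Nat.card (C ⊓ Z : Subgroup G) := by
    rw [← Subgroup.inf_subgroupOf_right, hc inf_le_right]
  have hN : (C.subgroupOf T).Normal := ⟨fun c hc' t => by
    rw [Subgroup.mem_subgroupOf] at hc' ⊢
    exact hn t t.2 c hc'⟩
  have h1 : C.relIndex Z ∣ C.relIndex T := by
    have h2 := Subgroup.relIndex_dvd_index_of_normal (C.subgroupOf T) (Z.subgroupOf T)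
    rwa [Subgroup.relIndex_subgroupOf hZT] at h2
  have h3 : C.relIndex Z * Nat.card (C ⊓ Z : Subgroup G) = Nat.card Z := by
    rw [← hcz]
    exact (C.subgroupOf Z).index_mul_card
  have h4 : C.relIndex T * Nat.card C = Nat.card T := by
    rw [← hc hCT]
    exact (C.subgroupOf T).index_mul_card
  refine ⟨Nat.card C * C.relIndex Z, mul_ne_zero Nat.card_pos.ne' fun h => ?_, ?_, ?_⟩
  · rw [h, zero_mul] at h3
    exact Nat.card_pos.ne' h3.symm
  · rw [mul_assoc, h3]
  · rw [← h4, mul_comm (C.relIndex T)]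
    exact Nat.mul_dvd_mul_left _ h1

/-- the action of `C × Z` on `G` by `t ↦ c t d⁻¹` -/
def EXC_rho {G : Type} [Group G] (S R : Subgroup G) : S × R →* Equiv.Perm G where
  toFun r := (Equiv.mulRight (r.2 : G)⁻¹).trans (Equiv.mulLeft (r.1 : G))
  map_one' := by
    ext t
    simp
  map_mul' r s := by
    ext t
    simp [mul_assoc]

theorem EXC_rho_apply {G : Type} [Group G] (S R : Subgroup G) (r : S × R) (t : G) :
    EXC_rho S R r t = r.1 * (t * (r.2 : G)⁻¹) := rfl

theorem EXC_stab {G : Type} [Group G] {C T Z : Subgroup G}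
    (hn : ∀ t ∈ T, ∀ c ∈ C, t * c * t⁻¹ ∈ C) {t : G} (ht : t ∈ T) :
    Nat.card {g : C × Z // EXC_rho C Z g t = t} = Nat.card (C ⊓ Z : Subgroup G) := by
  have key : ∀ g : C × Z, EXC_rho C Z g t = t → (g.1 : G) = t * g.2 * t⁻¹ := by
    rintro ⟨c, d⟩ h
    change (c : G) * (t * (d : G)⁻¹) = t at h
    change (c : G) = t * d * t⁻¹
    calc (c : G) = (c : G) * (t * (d : G)⁻¹) * d * t⁻¹ := by group
      _ = t * d * t⁻¹ := by rw [h]
  refine Nat.card_congr ⟨fun g => ⟨g.1.2, ?_, g.1.2.2⟩, fun s => ⟨(⟨t * s.1 * t⁻¹, ?_⟩, ⟨s.1, ?_⟩), ?_⟩,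
    fun g => ?_, fun s => rfl⟩
  · have h1 := key g.1 g.2
    have h2 := hn t⁻¹ (T.inv_mem ht) _ g.1.1.2
    rw [h1] at h2
    have h3 : t⁻¹ * (t * (g.1.2 : G) * t⁻¹) * t⁻¹⁻¹ = g.1.2 := by group
    rwa [h3] at h2
  · exact hn t ht _ s.2.1
  · exact s.2.2
  · rw [EXC_rho_apply]
    change t * s.1 * t⁻¹ * (t * (s.1)⁻¹) = t
    group
  · have h1 := key g.1 g.2
    obtain ⟨⟨c, d⟩, h⟩ := g
    apply Subtype.ext
    apply Prod.ext
    · apply Subtype.ext
      exact h1.symm
    · rfl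

theorem EXC (hORD : ORD_stmt) : EXC_stmt := by
  intro p M hM G _ _ C T hCT hn θ hθ hSB y hy
  classical
  have := Fintype.ofFinite G
  set Z : Subgroup G := Cz T y with hZ
  have hZT : Z ≤ T := fun x hx => (mem_Cz.1 hx).1
  have hCZ : C ⊓ Z = Cz C y := by
    ext x
    rw [Subgroup.mem_inf, mem_Cz, mem_Cz]
    exact ⟨fun h => ⟨h.1, h.2.2⟩, fun h => ⟨h.1, hCT h.1, h.2⟩⟩
  obtain ⟨N, hN0, hN, k, hk⟩ := EXC_num hCT hZT hn
  rw [hCZ] at hN
  have hθ1 : θ 1 ≠ 0 := IrrOn_ne hθ
  have hcj : ∀ t ∈ T, cj t C = C := by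
    intro t ht
    ext x
    rw [mem_cj]
    constructor
    · intro h
      have h1 := hn t ht _ h
      have h2 : t * (t⁻¹ * x * t) * t⁻¹ = x := by group
      rwa [h2] at h1
    · intro h
      have h1 := hn t⁻¹ (T.inv_mem ht) _ h
      rwa [inv_inv] at h1
  have hm : ∀ t ∈ T, Nat.card (Cz C (t * y * t⁻¹)) = Nat.card (Cz C y) := by
    intro t ht
    have h1 := cj_Cz t C y
    rw [hcj t ht] at h1
    rw [h1, card_cj]
  set F : G → ℂ := fun t => cc θ (cls C (t * y * t⁻¹)) with hF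
  have hF1 : F 1 = cc θ (cls C y) := by
    change cc θ (cls C (1 * y * 1⁻¹)) = _
    rw [one_mul, inv_one, mul_one]
  have hsum : ∑ᶠ t ∈ (T : Set G), F t = N * cc θ (cls T y) := by
    have hm0 : (Nat.card (Cz C y) : ℂ) ≠ 0 := by exact_mod_cast Nat.card_pos.ne'
    have h1 : (Nat.card (Cz C y) : ℂ) * ∑ᶠ t ∈ (T : Set G), F t =
        ∑ᶠ t ∈ (T : Set G), Nat.card C * (θ (t * y * t⁻¹) / θ 1) := by
      rw [mul_finsum_mem' _ _ (Set.toFinite _)]
      refine finsum_mem_congr rfl fun t ht => ?_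
      rw [← cc_cls hθ, hm t ht]
    have h2 : (Nat.card Z : ℂ) * cc θ (cls T y) = ∑ᶠ t ∈ (T : Set G), θ (t * y * t⁻¹) / θ 1 := by
      rw [← sum_cls T y (fun x => θ x / θ 1)]
      unfold cc
      rw [div_eq_mul_inv, finsum_mul' _ _ (Set.toFinite _)]
      congr 1
      refine finsum_congr fun x => ?_
      rw [div_eq_mul_inv, mul_assoc]
    have h3 : ∑ᶠ t ∈ (T : Set G), Nat.card C * (θ (t * y * t⁻¹) / θ 1) =
        Nat.card C * (Nat.card Z * cc θ (cls T y)) := by
      rw [h2, mul_finsum_mem' _ _ (Set.toFinite _)]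
    apply mul_left_cancel₀ hm0
    rw [h1, h3, ← mul_assoc, ← mul_assoc]
    congr 1
    have h4 : (N : ℂ) * Nat.card (Cz C y) = Nat.card C * Nat.card Z := by exact_mod_cast hN
    rw [← h4]
    ring
  refine ⟨k, ?_, ?_⟩
  · rw [hk, ← hN]
    ring
  · have hNC : (N : ℂ) ≠ 0 := by exact_mod_cast hN0
    have hcardT : ∑ᶠ t ∈ (T : Set G), F 1 = (Nat.card T : ℂ) * F 1 := by
      rw [finsum_mem_eq_finite_toFinset_sum _ (Set.toFinite (T : Set G)), Finset.sum_const,
        nsmul_eq_mul]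
      congr 2
      rw [← Set.ncard_eq_toFinset_card (T : Set G) (Set.toFinite (T : Set G))]
      rfl
    have hdiff : cc θ (cls T y) - k * cc θ (cls C y) =
        (∑ᶠ t, (T : Set G).indicator (fun t => F t - F 1) t) / N := by
      rw [← finsum_mem_def, finsum_mem_sub_distrib _ _ (Set.toFinite _), hsum, hcardT, hk, hF1]
      push_cast
      field_simp
    have hInM : ∀ t ∈ T, InM M (F t - F 1) := by
      intro t ht
      have h1 : F t = cc (funMap (MulAut.conj t⁻¹) θ) (cls C y) := by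
        rw [cc_funMap]
        change cc θ (cls C (t * y * t⁻¹)) = _
        congr 1
        funext x
        have h2 : ∀ z w : G, (∃ l ∈ C, l * (t * y * t⁻¹) * l⁻¹ = z) ↔
            ∃ l ∈ C, l * y * l⁻¹ = t⁻¹ * z * t⁻¹⁻¹ := by
          intro z w
          constructor
          · rintro ⟨l, hl, rfl⟩
            exact ⟨t⁻¹ * l * t⁻¹⁻¹, hn _ (T.inv_mem ht) _ hl, by group⟩
          · rintro ⟨l, hl, h⟩
            refine ⟨t * l * t⁻¹, hn _ ht _ hl, ?_⟩
            have h3 : z = t * (t⁻¹ * z * t⁻¹⁻¹) * t⁻¹ := by group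
            rw [h3, ← h]
            group
        by_cases h3 : ∃ l ∈ C, l * (t * y * t⁻¹) * l⁻¹ = x
        · rw [cls_one h3, cls_one ((h2 x x).1 h3)]
        · rw [cls_zero h3, cls_zero fun h4 => h3 ((h2 x x).2 h4)]
      rw [h1, hF1]
      exact SBIb hM (hSB t⁻¹ (T.inv_mem ht)) (cls_CF hy) fun x => IntAt.of_isIntegral hM (cls_int C y x)
    rw [hdiff]
    refine (hORD p M hM (C × Z) G (EXC_rho C Z) N hN0
      (fun t => (T : Set G).indicator (fun t => F t - F 1) t) ?_ ?_).2.2 ?_ ?_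
    · intro t
      change IntAt M ((T : Set G).indicator (fun t => F t - F 1) t)
      by_cases ht : t ∈ (T : Set G)
      · rw [Set.indicator_of_mem ht]
        exact (hInM t ht).intAt
      · rw [Set.indicator_of_notMem ht]
        exact IntAt.zero hM
    · rintro ⟨c, d⟩ t
      change (T : Set G).indicator (fun t => F t - F 1) ((c : G) * (t * (d : G)⁻¹)) =
        (T : Set G).indicator (fun t => F t - F 1) t
      have hc : (c : G) ∈ T := hCT c.2
      have hd : (d : G) ∈ T := hZT d.2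
      by_cases ht : t ∈ T
      · rw [Set.indicator_of_mem (show (c : G) * (t * (d : G)⁻¹) ∈ (T : Set G) from
          T.mul_mem hc (T.mul_mem ht (T.inv_mem hd))), Set.indicator_of_mem (show t ∈ (T : Set G) from ht)]
        congr 1
        change cc θ (cls C ((c : G) * (t * (d : G)⁻¹) * y * ((c : G) * (t * (d : G)⁻¹))⁻¹)) =
          cc θ (cls C (t * y * t⁻¹))
        have h1 : y * (d : G) = d * y := (mem_Cz.1 d.2).2
        have h2 : (c : G) * (t * (d : G)⁻¹) * y * ((c : G) * (t * (d : G)⁻¹))⁻¹ =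
            c * (t * y * t⁻¹) * (c : G)⁻¹ := by
          calc (c : G) * (t * (d : G)⁻¹) * y * ((c : G) * (t * (d : G)⁻¹))⁻¹ =
              c * (t * ((d : G)⁻¹ * (y * d)) * t⁻¹) * (c : G)⁻¹ := by group
            _ = c * (t * ((d : G)⁻¹ * (d * y)) * t⁻¹) * (c : G)⁻¹ := by rw [h1]
            _ = c * (t * y * t⁻¹) * (c : G)⁻¹ := by group
        rw [h2, cls_congr ⟨(c : G), c.2, rfl⟩]
      · rw [Set.indicator_of_notMem, Set.indicator_of_notMem]
        · exact ht
        · intro h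
          apply ht
          have h2 := T.mul_mem (T.mul_mem (T.inv_mem hc) h) hd
          have h3 : (c : G)⁻¹ * ((c : G) * (t * (d : G)⁻¹)) * d = t := by group
          rwa [h3] at h2
    · intro t ht
      have ht' : t ∈ T := by
        by_contra h
        exact ht (Set.indicator_of_notMem h _)
      rw [EXC_stab hn ht', hCZ, hN, Nat.card_prod]
    · intro t
      change InM M ((T : Set G).indicator (fun t => F t - F 1) t)
      by_cases ht : t ∈ (T : Set G)
      · rw [Set.indicator_of_mem ht]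
        exact hInM t ht
      · rw [Set.indicator_of_notMem ht]
        exact InM.zero hM

end Pool.Agent.FI
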