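import Pool.Agent.helper59.FI.SpecB

/-!
# Project fi (MP_baa4d7_al), row FWB: coset sums
-/

set_option autoImplicit false

namespace Pool.Agent.FI

open Pool.Agent.helper58.DC Pool.Agent.DI Pool.Agent.GR Pool.Agent.OB

theorem FWB_sum {G : Type} [Fintype G] (s : Set G) (f : G → ℂ) :
    ∑ᶠ t ∈ s, f t = ∑ t, s.indicator f t := by
  rw [finsum_mem_def, finsum_eq_sum_of_fintype]

theorem FWB_cf {G : Type} [Group G] [Finite G] {L R : Subgroup G} {a : G → ℂ}
    (ha : ∀ x, x ∉ L → a x = 0) : CF L (trL L R a) := by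
  classical
  have := Fintype.ofFinite G
  refine ⟨fun l hl y => ?_, fun y hy => ?_⟩
  · unfold trL
    congr 1
    rw [FWB_sum, FWB_sum, ← Equiv.sum_comp (Equiv.mulLeft l)]
    refine Finset.sum_congr rfl fun t _ => ?_
    rw [Equiv.coe_mulLeft]
    have e : (l * t)⁻¹ * (l * y * l⁻¹) * (l * t) = t⁻¹ * y * t := by group
    by_cases ht : t ∈ L
    · rw [Set.indicator_of_mem (show l * t ∈ (L : Set G) from L.mul_mem hl ht),
        Set.indicator_of_mem (show t ∈ (L : Set G) from ht), e]
    · rw [Set.indicator_of_notMem, Set.indicator_of_notMem]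
      · exact ht
      · intro h
        apply ht
        have h1 := L.mul_mem (L.inv_mem hl) h
        rwa [inv_mul_cancel_left] at h1
  · unfold trL
    have h0 : ∑ᶠ t ∈ (L : Set G), a (t⁻¹ * y * t) = 0 := by
      refine finsum_mem_eq_zero_of_forall_eq_zero fun t ht => ha _ fun h => hy ?_
      have h1 := L.mul_mem (L.mul_mem ht h) (L.inv_mem ht)
      have h2 : t * (t⁻¹ * y * t) * t⁻¹ = y := by group
      rwa [h2] at h1
    rw [h0, zero_div]

/-- the action of `R` on `G` by `t ↦ t r⁻¹` -/
def FWB_rho1 {G : Type} [Group G] (R : Subgroup G) : R →* Equiv.Perm G where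
  toFun r := Equiv.mulRight (r : G)⁻¹
  map_one' := by
    ext t
    simp
  map_mul' r s := by
    ext t
    simp [mul_assoc]

/-- the action of `S × R` on `G` by `t ↦ s t r⁻¹` -/
def FWB_rho2 {G : Type} [Group G] (S R : Subgroup G) : S × R →* Equiv.Perm G where
  toFun r := (Equiv.mulRight (r.2 : G)⁻¹).trans (Equiv.mulLeft (r.1 : G))
  map_one' := by
    ext t
    simp
  map_mul' r s := by
    ext t
    simp [mul_assoc]

theorem FWB_rho1_apply {G : Type} [Group G] (R : Subgroup G) (r : R) (t : G) :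
    FWB_rho1 R r t = t * (r : G)⁻¹ := rfl

theorem FWB_rho2_apply {G : Type} [Group G] (S R : Subgroup G) (r : S × R) (t : G) :
    FWB_rho2 S R r t = r.1 * (t * (r.2 : G)⁻¹) := rfl

/-- the subgroup of the `s ∈ S` with `t⁻¹ s t ∈ R` -/
def FWB_st {G : Type} [Group G] (S R : Subgroup G) (t : G) : Subgroup S :=
  (cj t R).subgroupOf S

theorem FWB_mem_st {G : Type} [Group G] (S R : Subgroup G) (t : G) (s : S) :
    s ∈ FWB_st S R t ↔ t⁻¹ * s * t ∈ R := by
  unfold FWB_st
  rw [Subgroup.mem_subgroupOf, mem_cj]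

theorem FWB_card_st {G : Type} [Group G] (S R : Subgroup G) (t : G) :
    Nat.card {g : S × R // FWB_rho2 S R g t = t} = Nat.card (FWB_st S R t) := by
  refine Nat.card_congr ⟨fun g => ⟨g.1.1, ?_⟩, fun s => ⟨(s.1, ⟨t⁻¹ * s.1 * t, ?_⟩), ?_⟩, fun g => ?_, fun s => rfl⟩
  · obtain ⟨⟨s, r⟩, h⟩ := g
    rw [FWB_mem_st]
    change (s : G) * (t * (r : G)⁻¹) = t at h
    have h1 : t⁻¹ * (s : G) * t = r := by
      calc t⁻¹ * (s : G) * t = t⁻¹ * ((s : G) * (t * (r : G)⁻¹)) * r := by group
        _ = t⁻¹ * t * r := by rw [h]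
        _ = r := by group
    change t⁻¹ * (s : G) * t ∈ R
    rw [h1]
    exact r.2
  · exact (FWB_mem_st S R t s.1).1 s.2
  · change (s.1 : G) * (t * (t⁻¹ * s.1 * t)⁻¹) = t
    group
  · obtain ⟨⟨s, r⟩, h⟩ := g
    change (s : G) * (t * (r : G)⁻¹) = t at h
    have h1 : t⁻¹ * (s : G) * t = r := by
      calc t⁻¹ * (s : G) * t = t⁻¹ * ((s : G) * (t * (r : G)⁻¹)) * r := by group
        _ = t⁻¹ * t * r := by rw [h]
        _ = r := by group
    apply Subtype.ext
    apply Prod.ext
    · rfl
    · apply Subtype.ext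
      exact h1

theorem FWB_prop {G : Type} [Group G] [Finite G] {p : ℕ} (hp : p.Prime) {S R : Subgroup G}
    (hS : IsPGroup p S) {t : G} (h : ¬ ∀ s ∈ S, t⁻¹ * s * t ∈ R) :
    p * Nat.card (FWB_st S R t) ∣ Nat.card S := by
  have : Fact p.Prime := ⟨hp⟩
  obtain ⟨n, hn⟩ := IsPGroup.iff_card.1 hS
  have h1 : Nat.card (FWB_st S R t) ∣ Nat.card S := Subgroup.card_subgroup_dvd_card _
  have h2 : Nat.card (FWB_st S R t) ≠ Nat.card S := by
    intro h3
    have h4 : FWB_st S R t = ⊤ := Subgroup.eq_top_of_card_eq _ h3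
    apply h
    intro s hs
    have h5 : (⟨s, hs⟩ : S) ∈ FWB_st S R t := by
      rw [h4]
      exact Subgroup.mem_top _
    exact (FWB_mem_st S R t ⟨s, hs⟩).1 h5
  rw [hn] at h1 h2 ⊢
  obtain ⟨m, hm, e⟩ := (Nat.dvd_prime_pow hp).1 h1
  rw [e] at h2 ⊢
  have h6 : m ≠ n := fun h7 => h2 (by rw [h7])
  rw [← pow_succ']
  exact pow_dvd_pow p (by omega)

theorem FWB (hORD : ORD_stmt) : FWB_stmt := by
  intro p M hM G _ _ L R hRL hR a hint ha hinv
  classical
  have := Fintype.ofFinite G
  have hR0 : Nat.card R ≠ 0 := Nat.card_pos.ne'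
  refine ⟨FWB_cf ha, fun y => ?_, fun S hS y hSy => ?_⟩
  · have h1 := (hORD p M hM R G (FWB_rho1 R) (Nat.card R) hR0
      (fun t => (L : Set G).indicator (fun t => a (t⁻¹ * y * t)) t) ?_ ?_).1 ?_
    · unfold trL
      rw [finsum_mem_def]
      exact h1
    · intro t
      by_cases ht : t ∈ (L : Set G)
      · change IntAt M ((L : Set G).indicator (fun t => a (t⁻¹ * y * t)) t)
        rw [Set.indicator_of_mem ht]
        exact hint _
      · change IntAt M ((L : Set G).indicator (fun t => a (t⁻¹ * y * t)) t)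
        rw [Set.indicator_of_notMem ht]
        exact IntAt.zero hM
    · intro r t
      change (L : Set G).indicator (fun t => a (t⁻¹ * y * t)) (t * (r : G)⁻¹) =
        (L : Set G).indicator (fun t => a (t⁻¹ * y * t)) t
      have hr : (r : G) ∈ L := hRL r.2
      by_cases ht : t ∈ L
      · rw [Set.indicator_of_mem (show t * (r : G)⁻¹ ∈ (L : Set G) from L.mul_mem ht (L.inv_mem hr)),
          Set.indicator_of_mem (show t ∈ (L : Set G) from ht)]
        have e : (t * (r : G)⁻¹)⁻¹ * y * (t * (r : G)⁻¹) = r * (t⁻¹ * y * t) * (r : G)⁻¹ := by group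
        rw [e]
        exact hinv r r.2 _
      · rw [Set.indicator_of_notMem, Set.indicator_of_notMem]
        · exact ht
        · intro h
          apply ht
          have h2 := L.mul_mem h hr
          rwa [inv_mul_cancel_right] at h2
    · intro t _
      have h2 : Nat.card {g : R // FWB_rho1 R g t = t} = 1 := by
        rw [Nat.card_eq_one_iff_unique]
        refine ⟨⟨fun g g' => ?_⟩, ⟨⟨1, by simp⟩⟩⟩
        obtain ⟨g, hg⟩ := g
        obtain ⟨g', hg'⟩ := g'
        rw [FWB_rho1_apply] at hg hg'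
        apply Subtype.ext
        apply Subtype.ext
        change (g : G) = g'
        have h3 : (g : G)⁻¹ = 1 := by simpa using hg
        have h4 : (g' : G)⁻¹ = 1 := by simpa using hg'
        exact inv_injective (h3.trans h4.symm)
      rw [h2, mul_one]
  · set A : Set G := {t : G | t ∈ L ∧ ∀ s ∈ S, t⁻¹ * s * t ∈ R} with hA
    set A' : Set G := {t : G | t ∈ L ∧ ¬ ∀ s ∈ S, t⁻¹ * s * t ∈ R} with hA'
    have hSL : S ≤ L := fun s hs => (mem_Cz.1 (hSy hs)).1
    have h1 := (hORD p M hM (S × R) G (FWB_rho2 S R) (Nat.card R) hR0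
      (fun t => A'.indicator (fun t => a (t⁻¹ * y * t)) t) ?_ ?_).2.1 ?_
    · have h2 : trL L R a y - (∑ᶠ t ∈ A, a (t⁻¹ * y * t)) / Nat.card R =
          (∑ᶠ t, A'.indicator (fun t => a (t⁻¹ * y * t)) t) / Nat.card R := by
        unfold trL
        rw [← sub_div, FWB_sum, FWB_sum, finsum_eq_sum_of_fintype, ← Finset.sum_sub_distrib]
        congr 1
        refine Finset.sum_congr rfl fun t _ => ?_
        by_cases ht : t ∈ L
        · by_cases ht' : ∀ s ∈ S, t⁻¹ * s * t ∈ R
          · rw [Set.indicator_of_mem (show t ∈ (L : Set G) from ht),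
              Set.indicator_of_mem (show t ∈ A from ⟨ht, ht'⟩),
              Set.indicator_of_notMem (show t ∉ A' from fun h => h.2 ht'), sub_self]
          · rw [Set.indicator_of_mem (show t ∈ (L : Set G) from ht),
              Set.indicator_of_notMem (show t ∉ A from fun h => ht' h.2),
              Set.indicator_of_mem (show t ∈ A' from ⟨ht, ht'⟩), sub_zero]
        · rw [Set.indicator_of_notMem (show t ∉ (L : Set G) from ht),
            Set.indicator_of_notMem (show t ∉ A from fun h => ht h.1),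
            Set.indicator_of_notMem (show t ∉ A' from fun h => ht h.1), sub_zero]
      rw [h2]
      exact h1
    · intro t
      change IntAt M (A'.indicator (fun t => a (t⁻¹ * y * t)) t)
      by_cases ht : t ∈ A'
      · rw [Set.indicator_of_mem ht]
        exact hint _
      · rw [Set.indicator_of_notMem ht]
        exact IntAt.zero hM
    · rintro ⟨s, r⟩ t
      change A'.indicator (fun t => a (t⁻¹ * y * t)) ((s : G) * (t * (r : G)⁻¹)) =
        A'.indicator (fun t => a (t⁻¹ * y * t)) t
      have hr : (r : G) ∈ L := hRL r.2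
      have hs : (s : G) ∈ L := hSL s.2
      have hiff : (s : G) * (t * (r : G)⁻¹) ∈ A' ↔ t ∈ A' := by
        rw [hA', Set.mem_ofPred_eq, Set.mem_ofPred_eq]
        refine and_congr ?_ (not_congr ?_)
        · constructor
          · intro h
            have h2 := L.mul_mem (L.mul_mem (L.inv_mem hs) h) hr
            have h3 : (s : G)⁻¹ * ((s : G) * (t * (r : G)⁻¹)) * r = t := by group
            rwa [h3] at h2
          · intro h
            exact L.mul_mem hs (L.mul_mem h (L.inv_mem hr))
        · constructor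
          · intro h x hx
            have h2 := h (s * x * (s : G)⁻¹) (S.mul_mem (S.mul_mem s.2 hx) (S.inv_mem s.2))
            have h3 := R.mul_mem (R.mul_mem (R.inv_mem r.2) h2) r.2
            have h4 : (r : G)⁻¹ * (((s : G) * (t * (r : G)⁻¹))⁻¹ * (s * x * (s : G)⁻¹) *
                ((s : G) * (t * (r : G)⁻¹))) * r = t⁻¹ * x * t := by group
            rwa [h4] at h3
          · intro h x hx
            have h2 := h ((s : G)⁻¹ * x * s) (S.mul_mem (S.mul_mem (S.inv_mem s.2) hx) s.2)
            have h3 := R.mul_mem (R.mul_mem r.2 h2) (R.inv_mem r.2)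
            have h4 : (r : G) * (t⁻¹ * ((s : G)⁻¹ * x * s) * t) * (r : G)⁻¹ =
                ((s : G) * (t * (r : G)⁻¹))⁻¹ * x * ((s : G) * (t * (r : G)⁻¹)) := by group
            rwa [h4] at h3
      by_cases ht : t ∈ A'
      · rw [Set.indicator_of_mem (hiff.2 ht), Set.indicator_of_mem ht]
        have h5 : y * (s : G) = s * y := (mem_Cz.1 (hSy s.2)).2
        have e : ((s : G) * (t * (r : G)⁻¹))⁻¹ * y * ((s : G) * (t * (r : G)⁻¹)) =
            r * (t⁻¹ * y * t) * (r : G)⁻¹ := by
          have h6 : (s : G)⁻¹ * y * s = y := by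
            rw [mul_assoc, h5, inv_mul_cancel_left]
          calc ((s : G) * (t * (r : G)⁻¹))⁻¹ * y * ((s : G) * (t * (r : G)⁻¹)) =
              r * (t⁻¹ * ((s : G)⁻¹ * y * s) * t) * (r : G)⁻¹ := by group
            _ = r * (t⁻¹ * y * t) * (r : G)⁻¹ := by rw [h6]
        rw [e]
        exact hinv r r.2 _
      · rw [Set.indicator_of_notMem (fun h => ht (hiff.1 h)), Set.indicator_of_notMem ht]
    · intro t ht
      have ht' : t ∈ A' := by
        by_contra h
        exact ht (Set.indicator_of_notMem h _)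
      rw [FWB_card_st, Nat.card_prod, mul_assoc, mul_comm (Nat.card S)]
      exact Nat.mul_dvd_mul_left _ (FWB_prop hM.pr hS ht'.2)

end Pool.Agent.FI
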