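import Pool.Agent.helper59.FI.SpecB

/-!
# Project fi (MP_baa4d7_al), row FWC
-/

set_option autoImplicit false

namespace Pool.Agent.FI

open Pool.Agent.helper58.DC Pool.Agent.DI Pool.Agent.GR Pool.Agent.OB

theorem FWC_nz {G : Type} [Group G] [Finite G] {R : Subgroup G} {t : G} :
    (∀ s ∈ R, t⁻¹ * s * t ∈ R) ↔ t ∈ nz R := by
  rw [Subgroup.mem_normalizer_iff]
  constructor
  · intro h x
    have hinj : Function.Injective (fun s : R => (⟨t⁻¹ * s * t, h s s.2⟩ : R)) := by
      intro s s' e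
      have e1 : t⁻¹ * (s : G) * t = t⁻¹ * (s' : G) * t := congrArg Subtype.val e
      exact Subtype.ext (mul_left_cancel (mul_right_cancel e1))
    have hsur := Finite.surjective_of_injective hinj
    constructor
    · intro hx
      obtain ⟨s, hs⟩ := hsur ⟨x, hx⟩
      have e1 : t⁻¹ * (s : G) * t = x := congrArg Subtype.val hs
      have e2 : t * x * t⁻¹ = s := by
        rw [← e1]
        group
      rw [e2]
      exact s.2
    · intro hx
      have h1 := h _ hx
      have e2 : t⁻¹ * (t * x * t⁻¹) * t = x := by group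
      rwa [e2] at h1
  · intro h s hs
    have e2 : t * (t⁻¹ * s * t) * t⁻¹ = s := by group
    refine (h _).2 ?_
    rw [e2]
    exact hs

theorem FWC_sum {G : Type} [Fintype G] (s : Set G) [DecidablePred (· ∈ s)] (f : G → ℂ) :
    ∑ᶠ t ∈ s, f t = ∑ t ∈ Finset.univ.filter (· ∈ s), f t := by
  rw [finsum_mem_def, finsum_eq_sum_of_fintype, Finset.sum_filter]
  refine Finset.sum_congr rfl fun t _ => ?_
  rw [Set.indicator_apply]

/-- linearity of `cc` -/
theorem FWC_cc {G : Type} [Group G] [Fintype G] (η : G → ℂ) (s : Set G) (F : G → G → ℂ) (c : ℂ) :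
    cc η (fun y => (∑ᶠ t ∈ s, F t y) / c) = (∑ᶠ t ∈ s, cc η (F t)) / c := by
  classical
  unfold cc
  simp_rw [FWC_sum]
  simp only [finsum_eq_sum_of_fintype]
  have h1 : ∀ x, (∑ t ∈ Finset.univ.filter (· ∈ s), F t x) / c * η x =
      ∑ t ∈ Finset.univ.filter (· ∈ s), F t x * η x / c := by
    intro x
    rw [Finset.sum_div, Finset.sum_mul]
    exact Finset.sum_congr rfl fun t _ => by ring
  rw [Finset.sum_congr rfl fun x _ => h1 x, Finset.sum_comm, Finset.sum_div, Finset.sum_div]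
  refine Finset.sum_congr rfl fun t _ => ?_
  rw [← Finset.sum_div]
  ring

theorem FWC (hFWB : FWB_stmt) (hFWV : FWV_stmt) (hCCI : CCI_stmt) (hIDM : IDM_stmt)
    (hEIN : EIN_stmt) : FWC_stmt := by
  intro p M hM G _ _ L R hR hcom hCL θ hθ w hw
  classical
  have := Fintype.ofFinite G
  have hRC : R ≤ cz R := le_cz_of_com hcom
  have hRL : R ≤ L := hRC.trans hCL
  have hSub : Bl M (cz R) θ ⊆ IrrOn (cz R) := fun ψ hψ => hψ.1
  obtain ⟨hfCF, hfcc, -, -⟩ := hIDM G (cz R) (Bl M (cz R) θ) hSub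
  have hfint : ∀ x, IntAt M (eS (cz R) (Bl M (cz R) θ) x) := by
    have h := hEIN p M hM G (cz R) (BR M (cz R) θ (cz R)) (BCR le_rfl θ)
    rwa [BR_self] at h
  set f : G → ℂ := eS (cz R) (Bl M (cz R) θ) with hf
  set a : G → ℂ := fun x => f (x * w⁻¹) with ha
  have haC : ∀ x, x ∉ cz R → a x = 0 := by
    intro x hx
    refine hfCF.2 _ fun h => hx ?_
    have h1 := (cz R).mul_mem h hw
    rwa [inv_mul_cancel_right] at h1
  have haL : ∀ x, x ∉ L → a x = 0 := fun x hx => haC x fun h => hx (hCL h)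
  have haint : ∀ x, IntAt M (a x) := fun x => hfint _
  have hwr : ∀ c ∈ cz R, ∀ r ∈ R, r * c = c * r := by
    intro c hc r hr
    exact (Subgroup.mem_centralizer_iff.1 hc) r hr
  have hainv : ∀ r ∈ R, ∀ x, a (r * x * r⁻¹) = a x := by
    intro r hr x
    change f (r * x * r⁻¹ * w⁻¹) = f (x * w⁻¹)
    have h1 : r⁻¹ * w⁻¹ = w⁻¹ * r⁻¹ := by
      rw [← mul_inv_rev, ← mul_inv_rev, hwr w hw r hr]
    have e : r * x * r⁻¹ * w⁻¹ = r * (x * w⁻¹) * r⁻¹ := by
      rw [mul_assoc (r * x), h1]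
      group
    rw [e]
    exact hfCF.1 r (hRC hr) _
  obtain ⟨h1, h2, h3⟩ := hFWB p M hM G L R hRL hR a haint haL hainv
  refine ⟨trL L R a, h1, h2, fun y hy S hS hSy => ?_, fun η hη => ?_⟩
  · by_contra hlt
    apply hy
    have hempty : {t : G | t ∈ L ∧ ∀ s ∈ S, t⁻¹ * s * t ∈ R} = ∅ := by
      rw [Set.eq_empty_iff_forall_notMem]
      rintro t ⟨-, ht⟩
      apply hlt
      refine Nat.card_le_card_of_injective (fun s : S => (⟨t⁻¹ * s * t, ht s s.2⟩ : R)) ?_
      intro s s' e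
      have e1 : t⁻¹ * (s : G) * t = t⁻¹ * (s' : G) * t := congrArg Subtype.val e
      exact Subtype.ext (mul_left_cancel (mul_right_cancel e1))
    have h4 := h3 S hS y hSy
    rw [hempty, finsum_mem_empty, zero_div, sub_zero] at h4
    exact h4
  · set N : Set G := {t : G | t ∈ L ∧ t ∈ nz R} with hN
    set q' : G → ℂ := fun y => (∑ᶠ t ∈ N, a (t⁻¹ * y * t)) / (Nat.card R : ℂ) with hq'
    have hNN : {t : G | t ∈ L ∧ ∀ s ∈ R, t⁻¹ * s * t ∈ R} = N := by
      ext t
      exact and_congr_right fun _ => FWC_nz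
    have hdC : ∀ y ∈ cz R, InM M (trL L R a y - q' y) := by
      intro y hy
      have h4 := h3 R hR y fun r hr => mem_Cz.2 ⟨hRL hr, (hwr y hy r hr).symm⟩
      rw [hNN] at h4
      exact h4
    have hCN : ∀ t ∈ N, ∀ y, t⁻¹ * y * t ∈ cz R → y ∈ cz R := by
      intro t ht y hy
      have h5 := cz_conj ht.2 hy
      have e : t * (t⁻¹ * y * t) * t⁻¹ = y := by group
      rwa [e] at h5
    have hq0 : ∀ y, y ∉ cz R → q' y = 0 := by
      intro y hy
      change (∑ᶠ t ∈ N, a (t⁻¹ * y * t)) / (Nat.card R : ℂ) = 0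
      have h0 : ∑ᶠ t ∈ N, a (t⁻¹ * y * t) = 0 :=
        finsum_mem_eq_zero_of_forall_eq_zero fun t ht => haC _ fun h => hy (hCN t ht y h)
      rw [h0, zero_div]
    have hqinv : ∀ c ∈ cz R, ∀ y, q' (c * y * c⁻¹) = q' y := by
      intro c hc y
      change (∑ᶠ t ∈ N, a (t⁻¹ * (c * y * c⁻¹) * t)) / (Nat.card R : ℂ) =
        (∑ᶠ t ∈ N, a (t⁻¹ * y * t)) / (Nat.card R : ℂ)
      congr 1
      rw [finsum_mem_def, finsum_mem_def, finsum_eq_sum_of_fintype, finsum_eq_sum_of_fintype,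
        ← Equiv.sum_comp (Equiv.mulLeft c)]
      refine Finset.sum_congr rfl fun t _ => ?_
      rw [Equiv.coe_mulLeft]
      have e : (c * t)⁻¹ * (c * y * c⁻¹) * (c * t) = t⁻¹ * y * t := by group
      have hiff : c * t ∈ N ↔ t ∈ N := by
        constructor
        · rintro ⟨ht, ht'⟩
          have h6 := L.mul_mem (L.inv_mem (hCL hc)) ht
          have h7 := (nz R).mul_mem ((nz R).inv_mem (cz_le_nz R hc)) ht'
          rw [inv_mul_cancel_left] at h6 h7
          exact ⟨h6, h7⟩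
        · rintro ⟨ht, ht'⟩
          exact ⟨L.mul_mem (hCL hc) ht, (nz R).mul_mem (cz_le_nz R hc) ht'⟩
      by_cases ht : t ∈ N
      · rw [Set.indicator_of_mem (hiff.2 ht), Set.indicator_of_mem ht, e]
      · rw [Set.indicator_of_notMem (fun h => ht (hiff.1 h)), Set.indicator_of_notMem ht]
    have hcutq : ∀ x, InM M ((cut (cz R) (trL L R a) - q') x) := by
      intro x
      rw [Pi.sub_apply]
      by_cases hx : x ∈ cz R
      · rw [cut_mem hx]
        exact hdC x hx
      · rw [cut_not hx, hq0 x hx, sub_zero]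
        exact InM.zero hM
    obtain ⟨hlin, -, hC3⟩ := hCCI G (cz R) η hη
    have hinvd : ∀ h ∈ cz R, ∀ x, (cut (cz R) (trL L R a) - q') (h * x * h⁻¹) =
        (cut (cz R) (trL L R a) - q') x := by
      intro h hh x
      rw [Pi.sub_apply, Pi.sub_apply, hqinv h hh x, (CF_cut hCL h1.1).1 h hh x]
    have h8 := (hC3 p M hM _ hinvd).2 hcutq
    rw [(hlin 1 _ _).2.1, cc_cut (fun x hx => IrrOn_zero hη hx)] at h8
    have h9 : cc η q' = (∑ᶠ t ∈ {t : G | t ∈ L ∧ t ∈ nz R ∧
        SB M (cz R) (funMap (MulAut.conj t⁻¹) η) θ}, η (t * w * t⁻¹) / η 1) / Nat.card R := by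
      rw [hq', FWC_cc η N (fun t y => a (t⁻¹ * y * t)) (Nat.card R : ℂ)]
      congr 1
      rw [FWC_sum, FWC_sum, Finset.sum_filter, Finset.sum_filter]
      refine Finset.sum_congr rfl fun t _ => ?_
      by_cases ht : t ∈ N
      · rw [if_pos ht]
        have hcjR : cj t⁻¹ R = R := cj_nz.2 ((nz R).inv_mem ht.2)
        have hcj : cj t⁻¹ (cz R) = cz R := by rw [← cj_cz, hcjR]
        have hηt : funMap (MulAut.conj t⁻¹) η ∈ IrrOn (cz R) := by
          have h10 := IrrOn_funMap hη t⁻¹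
          rwa [hcj] at h10
        have h11 : cc η (fun y => a (t⁻¹ * y * t)) = cc (funMap (MulAut.conj t⁻¹) η) a := by
          rw [cc_funMap]
          congr 1
          funext y
          rw [inv_inv]
        rw [h11, hFWV G (cz R) _ hηt f hfCF w hw, hfcc _ hηt]
        have h12 : funMap (MulAut.conj t⁻¹) η w = η (t * w * t⁻¹) := by
          rw [funMap_apply, inv_inv]
        have h13 : funMap (MulAut.conj t⁻¹) η 1 = η 1 := by
          rw [funMap_apply]
          simp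
        rw [h12, h13]
        by_cases hs : SB M (cz R) (funMap (MulAut.conj t⁻¹) η) θ
        · rw [if_pos (show funMap (MulAut.conj t⁻¹) η ∈ Bl M (cz R) θ from ⟨hηt, hs⟩),
            if_pos (show t ∈ {t : G | t ∈ L ∧ t ∈ nz R ∧
              SB M (cz R) (funMap (MulAut.conj t⁻¹) η) θ} from ⟨ht.1, ht.2, hs⟩), one_mul]
        · rw [if_neg (show funMap (MulAut.conj t⁻¹) η ∉ Bl M (cz R) θ from fun h => hs h.2),
            if_neg (show t ∉ {t : G | t ∈ L ∧ t ∈ nz R ∧
              SB M (cz R) (funMap (MulAut.conj t⁻¹) η) θ} from fun h => hs h.2.2), zero_mul]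
      · rw [if_neg ht, if_neg]
        rintro ⟨h10, h11, -⟩
        exact ht ⟨h10, h11⟩
    rw [h9] at h8
    exact h8

end Pool.Agent.FI
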